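import Pool.Agent.H30H.Fin

/-!
# The 2-primary descent for odd hyperelliptic curves over all the admissible 2-extensions at once

Let `F` be a number field and `g ≥ 1`. A Galois extension `M` of `F` of degree a power of two is admissible
for the monic polynomial `f` of degree `2 g + 1` over the ring of integers of `F` if the primes above two, the
real places and the primes `v` not above two with `f = x ^ (2 g + 1)` modulo `v` split completely in `M`
and `f` is irreducible modulo the primes which are ramified in `M`.

Theorem. For a positive proportion of the `f`, ordered by height, the curve `C : y ^ 2 = f(x)` has the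
following property for every admissible extension `M` of `F`: all the `2 ^ k`-Selmer sets of `C` over `M`
consist of the trivial covering; `C(M)` consists of the point at infinity; and the components above two
and infinity of every adelic point of `C` over `M` which survives the 2-primary descent are those of this point.

So these curves satisfy Stoll's conjecture at the places above two and infinity over all these fields. The
theorem on the 2-Selmer group over one field is applied for a single twist, which is chosen over `F`
independently of `M`; the local conditions which define its Selmer group over `F` are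
put on the elements of the compositum `Ω` of `M` and `L = F[x]/(f)`: even valuations at the primes not above two which
are unramified in `M` and at which `f'(x)` is a unit; the conditions at the big primes above the primes of the twist;
and the local images at the places above two and infinity. The conditions are multiplicative and
stable under the automorphisms of `Ω` over `L`, so by Galois descent along a 2-extension the
elements with square norms which satisfy them are squares if this is so for the elements of `L`. At the
primes which are ramified in `M` the condition for an element of `L` follows from its norm, as `f` is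
irreducible modulo these primes.
-/

set_option autoImplicit false

open Polynomial NumberField IsDedekindDomain

namespace Pool.Agent.Results.MP_ab3ecb_nt.AllTwoExtensionsAtOnce

open Pool.Agent.Helper29J.Defs Pool.Agent.H30H

/-- For every `k` the `2 ^ k`-Selmer set of the curve `y ^ 2 = f(x)` over the number field `K` consists of
the trivial covering: its cocycles are coboundaries of points of order dividing `2 ^ k` of the Jacobian. -/
def TrivialSelmerSets {K : Type} [Field K] [NumberField K] (f : K[X]) : Prop :=
  ∀ k : ℕ, ∀ ξ ∈ SelmerSet f (2 ^ k), ∃ T : J f (SeparableClosure K), T ^ 2 ^ k = 1 ∧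
    ∀ σ : Gal K, ξ σ = mapJ f σ.toAlgHom T / T

/-- The polynomial is irreducible modulo the primes above two. -/
def IrreducibleAtTwo {F : Type} [Field F] [NumberField F] (f : (𝓞 F)[X]) : Prop :=
  ∀ v : HeightOneSpectrum (𝓞 F), (2 : 𝓞 F) ∈ v.asIdeal →
    Irreducible (f.map (Ideal.Quotient.mk v.asIdeal))

theorem result (F : Type) [Field F] [NumberField F] (g : ℕ) (hg : 1 ≤ g) :
    ∃ c : ℝ, 0 < c ∧ ∃ B₀ : ℕ, ∀ B ≥ B₀, {f : (𝓞 F)[X] | InBox g B f}.Finite ∧
      c * ({f : (𝓞 F)[X] | InBox g B f}.ncard : ℝ) ≤
        ({f : (𝓞 F)[X] | InBox g B f ∧ Irreducible (overF f) ∧ IsMinimal g f ∧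
          IrreducibleAtTwo f ∧
          ∀ (M : Type) [Field M] [NumberField M] [Algebra F M], Admissible M f →
            TrivialSelmerSets (overF (extend M f)) ∧
              OnlyInfinitySurvives (overF (extend M f))}.ncard : ℝ) := by
  obtain ⟨f₁, hf₁, c, hc, B₀, hB⟩ := many2 g F hg
  have hbox : ∀ (B : ℕ) (f : (𝓞 F)[X]), Pool.Agent.N783.PF.Ht g B f ↔ InBox g B f :=
    fun B f => ⟨fun h => ⟨h.mon, h.deg, h.tr, h.ht⟩, fun h => ⟨h.1, h.2, h.3, h.4⟩⟩
  refine ⟨c, hc, B₀, fun B hBB => ?_⟩
  obtain ⟨h1, h2⟩ := hB B hBB
  have e : {f : (𝓞 F)[X] | Pool.Agent.N783.PF.Ht g B f} = {f : (𝓞 F)[X] | InBox g B f} :=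
    Set.ext fun f => hbox B f
  rw [e] at h1 h2
  refine ⟨h1, h2.trans (Nat.cast_le.2 (Set.ncard_le_ncard ?_ (h1.subset fun f hf => hf.1)))⟩
  rintro f ⟨hht, hG, h8⟩
  refine ⟨(hbox B f).1 hht, hG.1, hG.2.1, fun v hv => ?_, fun M _ _ _ hadm =>
    fin_M hg hht.mon hht.deg hG h8 hf₁ hadm⟩
  have e1 : f.map (Ideal.Quotient.mk v.asIdeal) = f₁.map (Ideal.Quotient.mk v.asIdeal) := by
    ext n
    rw [coeff_map, coeff_map, Ideal.Quotient.eq]
    obtain ⟨d, hd⟩ := h8 n
    have h9 : (8 : 𝓞 F) = 2 * 4 := by norm_num
    rw [hd, h9, mul_assoc]
    exact Ideal.mul_mem_right _ _ hv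
  rw [e1]
  exact (hf₁ v hv).2

end Pool.Agent.Results.MP_ab3ecb_nt.AllTwoExtensionsAtOnce
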