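import Mathlib
import Pool.Agent.H30Q.Fin

/-!
# Stoll's conjecture in thin families of quadratic twists: twists by prime numbers and iterated densities

Let `g` be a polynomial with integral coefficients which is irreducible over `ℚ`, of even degree `n ≥ 6`, such that
the curve `y ^ 2 = g(x)` is everywhere locally soluble. (Nothing is assumed about the Galois group. Replacing `g`
by a multiple one can start from any everywhere locally soluble twist.) The twist by `E`, `C_E : y ^ 2 = E g(x)`, is
said to violate the Hasse principle for the reason of 2-descent (`Violates`) if it is everywhere locally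
soluble, if its fake 2-Selmer set is empty and if it has no rational point, also at infinity. Then no 2-covering
of `C_E` is everywhere locally soluble, so the Brauer-Manin set is empty (Stoll), and Stoll's conjecture holds for
`C_E`: both sides are empty.

Theorem. Let `T ≥ 1`.

(1) For some `δ > 0` at least `X / (log X) ^ (1 - δ)` of the squarefree `E ≤ X` with `E = 1` modulo `T` violate the
Hasse principle in this sense. So the violating twists are dense in the everywhere locally soluble ones, for the
product of the topologies of `ℚ_p^*`, `p ∣ T`, and `ℝ^*`, in every class.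

(2) There are a multiple `W` of `T` and constants `C` and `κ < 1` such that the set `S` of the primes `q = 1` modulo
`W` modulo which `g` has a zero has the following properties. It has positive density. For every finite subset
`F` of `S` the twist by `E = ∏ F` is everywhere locally soluble, and for a prime `q = 1` modulo `W`, `q ∉ F`, the twist by
`E q` is everywhere locally soluble if and only if `q ∈ S`. The relative upper density of the `q` in `S` for which
`C_{E q}` does not violate the Hasse principle is at most `C (4 n / 2 ^ n) ^ t`, `t` the number of the `p` in `F` modulo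
which `g` splits completely. The iterated upper density of the `(q_0, …, q_k)` for which the twist by `E q_0 ⋯ q_k` does
not violate the Hasse principle is at most `C κ ^ k (4 n / 2 ^ n) ^ t`.

So for every `ε > 0` there is a finite set `F_ε` such that for EVERY finite `F` with `F_ε ⊆ F ⊆ S` all but a proportion
`ε` of the prime multiples `E q` of `E = ∏ F` give counterexamples to the Hasse principle.

Relation to the starting library: `Pool/Agent/Q51/EL` proves that 100 percent of the everywhere locally
soluble twists by squarefree `D`, `|D| ≤ X`, have an empty 2-Selmer set, by the large sieve in `ℚ(θ)`. This says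
nothing about families of `O(X / log X)` twists like the `E q`, `q` prime. The proof here is different.

Proof. `L = ℚ(θ)`, `g(θ) = 0` (`g` monic without loss of generality), `P = F`. By the pigeonhole principle there are
elements `A_i`, `i < r`, of `L` whose norm is a square, which are squares at the bad places, have even valuations at
the primes not above `P` and are independent modulo squares of `L(ζ_W)`, with `2 ^ r ≥ c ∏_{p ∈ P} 2 ^ (c_p - 1)`,
`c_p` the number of the primes of `L` above `p`. For a class `δ` of `L^*` modulo `ℚ^*` and squares let `(δ, A_i)_v` be the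
local invariant of the corestriction of the quaternion algebra `(δ, A_i)`, defined by Hasse invariants of trace
forms; it satisfies the product formula. If `δ` belongs to the fake 2-Selmer set of `C_{E q}`, the invariants are
trivial outside `P` and `q`; those at `p ∈ P` depend only on the class of `E q` and on the zero of `g` modulo `p` to
which the local point reduces, so that the product over `P` of the vectors of the `(δ, A_i)` is in a set `V` of at
most `∏ 2 k_p` vectors, `k_p` the number of the zeros modulo `p`; at `q` the vector is that of the Legendre symbols of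
`A_i(e)`, where the point reduces to the zero `e` modulo `q`. By Chebotarev's theorem (natural density) this vector
is in `V` at most for a proportion `n |V| / 2 ^ r` of the `q` in `S`. The weights `4 k_p / 2 ^ (c_p)` are at most `1`, and their
mean `κ` over `S` is less than `1` as `n ≥ 6`. For (1) one fixes `F` and `q` and multiplies by arbitrary products of primes
modulo which all `A_i` are squares at the zeros of `g`.

(helper30, with helper4, helper12, helper21, helper23, helper29, helper33, helper36, helper50, helper52, helper58,
helper62, helper63, helper66, helper72, helper75, helper85, helper86, helper88.)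
-/

set_option autoImplicit false

open Polynomial Filter Topology
open scoped Classical

namespace Pool.Agent.Results.MP_ab3ecb_nt.HasseFailuresInTwistFamilies

section definitions

/-- The curve `y ^ 2 = E g(x)` has a point with `y ≠ 0` over the field `K`. (For `K = ℚ_p`, `ℝ` and a separable `g`
this is so if and only if the smooth projective model has a point over `K`.) -/
def HasPoint (K : Type) [Field K] (g : ℤ[X]) (E : ℤ) : Prop :=
  ∃ x y : K, y ≠ 0 ∧ y ^ 2 = (E : K) * (g.map (Int.castRingHom K)).eval x

/-- The curve `y ^ 2 = E g(x)` is everywhere locally soluble. -/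
def Soluble (g : ℤ[X]) (E : ℤ) : Prop :=
  (∀ (p : ℕ) [Fact p.Prime], HasPoint ℚ_[p] g E) ∧ HasPoint ℝ g E

/-- `θ` is the image of `X` in the algebra `K[X]/(g)`. Up to squares and up to a constant `u` the element `h(θ)` of
this algebra is equal to `x - θ` for a point `(x, y)`, `y ≠ 0`, of `y ^ 2 = E g(x)` over `K`. -/
def InImage (K : Type) [Field K] (g : ℤ[X]) (E : ℤ) (h : K[X]) : Prop :=
  ∃ (x y u : K) (s : K[X]), y ≠ 0 ∧ u ≠ 0 ∧ y ^ 2 = (E : K) * (g.map (Int.castRingHom K)).eval x ∧
    g.map (Int.castRingHom K) ∣ (C x - X) - C u * h * s ^ 2

/-- The fake 2-Selmer set of `y ^ 2 = E g(x)` is not empty: some invertible element `h(θ)` of `ℚ[X]/(g)` is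
everywhere locally in the image of the descent map. -/
def HasSelmerElement (g : ℤ[X]) (E : ℤ) : Prop :=
  ∃ h : ℚ[X], IsCoprime h (g.map (Int.castRingHom ℚ)) ∧
    (∀ (p : ℕ) [Fact p.Prime], InImage ℚ_[p] g E (h.map (Rat.castHom ℚ_[p]))) ∧
    InImage ℝ g E (h.map (Rat.castHom ℝ))

/-- The curve `y ^ 2 = E g(x)` (`g` of even degree) violates the Hasse principle, and this is explained by
2-descent: it is everywhere locally soluble, its fake 2-Selmer set is empty, and it has no rational points, neither
affine ones nor at infinity. -/
structure Violates (g : ℤ[X]) (E : ℤ) : Prop where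
  soluble : Soluble g E
  noSelmerElement : ¬ HasSelmerElement g E
  noAffinePoint : ¬ ∃ x y : ℚ, y ^ 2 = (E : ℚ) * (g.map (Int.castRingHom ℚ)).eval x
  noPointAtInfinity : ¬ IsSquare (E * g.leadingCoeff)

/-- The primes `q = 1` modulo `W` modulo which `g` has a zero. -/
def rootPrimes (g : ℤ[X]) (W : ℕ) : Set ℕ :=
  {q | q.Prime ∧ q % W = 1 % W ∧ ∃ e : ℤ, (q : ℤ) ∣ g.eval e}

/-- The elements of `S` up to `x`. -/
noncomputable def upTo (S : Set ℕ) (x : ℕ) : Finset ℕ := (Finset.range (x + 1)).filter fun q => q ∈ S

/-- The mean of `G` on the elements of `S` up to `x`. -/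
noncomputable def average (S : Set ℕ) (G : ℕ → ℝ) (x : ℕ) : ℝ :=
  (∑ q ∈ upTo S x, G q) / (upTo S x).card

/-- The iterated upper mean of the function `G` of finite sets: `k` elements of `S` are added to `F`, one after the
other, and the upper limits of the means over these elements are taken, first for the last one. -/
noncomputable def iteratedUpperMean (S : Set ℕ) (G : Finset ℕ → ℝ) : ℕ → Finset ℕ → ℝ
  | 0, F => G F
  | k + 1, F => limsup (fun x => average S (fun q => iteratedUpperMean S G k (insert q F)) x) atTop

/-- `0` if the twist by the product of the elements of `F` violates the Hasse principle, `1` if it does not. -/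
noncomputable def defect (g : ℤ[X]) (F : Finset ℕ) : ℝ :=
  if Violates g (∏ p ∈ F, (p : ℤ)) then 0 else 1

/-- The number of the elements of `F` modulo which `g` has `deg g` zeros. -/
noncomputable def numSplit (g : ℤ[X]) (F : Finset ℕ) : ℕ :=
  (F.filter fun p => ((Finset.range p).filter fun c : ℕ => (p : ℤ) ∣ g.eval (c : ℤ)).card =
    g.natDegree).card

end definitions

lemma violates_iff (g : ℤ[X]) (E : ℤ) : Pool.Agent.H30Q.Vio g E ↔ Violates g E :=
  ⟨fun h => ⟨h.1, h.2, h.3, h.4⟩, fun h => ⟨h.1, h.2, h.3, h.4⟩⟩

lemma iterated_eq (S : Set ℕ) (G : Finset ℕ → ℝ) (k : ℕ) (F : Finset ℕ) :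
    iteratedUpperMean S G k F = Pool.Agent.H30Q.It S G k F := by
  induction k generalizing F with
  | zero => rfl
  | succ k ih =>
    show limsup (fun x => average S (fun q => iteratedUpperMean S G k (insert q F)) x) atTop =
      limsup (fun x => Pool.Agent.H30Q.avg S (fun q => Pool.Agent.H30Q.It S G k (insert q F)) x) atTop
    simp only [ih]
    rfl

/-- Let `g ∈ ℤ[X]` be irreducible over `ℚ`, of even degree `n ≥ 6`, and let `y ^ 2 = g(x)` be everywhere locally
soluble. (1) At least `X / (log X) ^ (1 - δ)` of the twists by squarefree `E ≤ X`, `E = 1` modulo `T`, violate the Hasse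
principle, explained by 2-descent. (2) For suitable `W`, `T ∣ W`, and `C`, `κ < 1`: the set `S` of the primes `q = 1` modulo `W`
modulo which `g` has a zero has positive lower density, the twists by products of its elements are everywhere
locally soluble, and, among the primes `q = 1` modulo `W`, exactly its elements lead to everywhere locally soluble
twists; for every finite subset `F` of `S` the iterated upper density of the `k + 1` primes in `S` which, together with
`F`, give twists which do not violate the Hasse principle is at most `C κ ^ k (4 n / 2 ^ n) ^ t`, `t` the number of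
the elements of `F` modulo which `g` splits completely. -/
theorem result (g : ℤ[X]) (hirr : Irreducible (g.map (Int.castRingHom ℚ))) (heven : Even g.natDegree)
    (h6 : 6 ≤ g.natDegree) (hsol : Soluble g 1) (T : ℕ) (hT : T ≠ 0) :
    (∃ δ : ℝ, 0 < δ ∧ ∀ᶠ X : ℕ in atTop, (X : ℝ) / Real.log X ^ (1 - δ) ≤
      (((Finset.range (X + 1)).filter fun E : ℕ =>
        Squarefree E ∧ E % T = 1 % T ∧ Violates g (E : ℤ)).card : ℝ)) ∧
    ∃ (W : ℕ) (C κ : ℝ), W ≠ 0 ∧ T ∣ W ∧ 0 < C ∧ 0 ≤ κ ∧ κ < 1 ∧
      (∃ c : ℝ, 0 < c ∧ ∀ᶠ x : ℕ in atTop,
        c * (Nat.primeCounting x : ℝ) ≤ (upTo (rootPrimes g W) x).card) ∧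
      (∀ F : Finset ℕ, (∀ p ∈ F, p ∈ rootPrimes g W) → Soluble g (∏ p ∈ F, (p : ℤ))) ∧
      (∀ F : Finset ℕ, (∀ p ∈ F, p ∈ rootPrimes g W) → ∀ q : ℕ, q.Prime → q % W = 1 % W → q ∉ F →
        (Soluble g (∏ p ∈ insert q F, (p : ℤ)) ↔ q ∈ rootPrimes g W)) ∧
      ∀ (k : ℕ) (F : Finset ℕ), (∀ p ∈ F, p ∈ rootPrimes g W) →
        iteratedUpperMean (rootPrimes g W) (defect g) (k + 1) F ≤
          C * κ ^ k * (4 * g.natDegree / 2 ^ g.natDegree) ^ numSplit g F := by
  constructor
  · obtain ⟨δ, hδ, h⟩ := Pool.Agent.H30Q.fin1 g hirr heven h6 hsol T hT
    refine ⟨δ, hδ, ?_⟩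
    filter_upwards [h] with X hX
    refine hX.trans (le_of_eq ?_)
    congr 2
    exact Finset.filter_congr fun E _ => by rw [violates_iff]
  · obtain ⟨W, C, κ, h1, h2, h3, h4, h5, h7, h8, h9, h10⟩ :=
      Pool.Agent.H30Q.fin2 g hirr heven h6 hsol T hT
    refine ⟨W, C, κ, h1, h2, h3, h4, h5, h7, h8, h9, fun k F hF => ?_⟩
    have h := h10 k F hF
    have e : (fun F : Finset ℕ => if Pool.Agent.H30Q.Vio g (∏ p ∈ F, (p : ℤ)) then (0 : ℝ) else 1) =
        defect g := by
      funext F
      unfold defect
      simp only [violates_iff]
    rw [e] at h
    rw [iterated_eq]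
    exact h

end Pool.Agent.Results.MP_ab3ecb_nt.HasseFailuresInTwistFamilies
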