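import Pool.Agent.HP25.TW.F
import Pool.Agent.Results.MP_308fa9_nt.RandomOrbits

/-!
# MP_ab3ecb_nt: Stoll's conjecture over all number fields of bounded degree for curves in products of
# CM elliptic curves whose coefficients have random digits, are prefixes of normal numbers, or are
# near the multiples of random numbers, for all measures with Fourier decay

`E_i : y² = x³ + a_i x + b_i` (`i = 1, …, r`) are elliptic curves over `ℚ` with complex multiplication,
of arbitrary rank and without hypothesis on their Tate-Shafarevich groups, `A = E_1 × … × E_r`, `K` is a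
number field, `𝒯 ⊆ A × ℙᵐ` a closed subvariety over `𝓞 K`, `𝒯 = {Φ_l = 0}`, with fibres of dimension at
most `κ` over `A`, and `X_c = 𝒯 ∩ {F_1 = … = F_s = 0}`, where `F_j` runs through all forms of multidegree
`(d_j; e_j)` and `c ∈ (𝓞 K)ⁿ` is the vector of all their coefficients; `D ≥ 1`, `r > 2 D (r + κ - s)` (for
curves `r > 2 D`), and the degrees are at least `D - 1` (`Admissible`). For instance `𝒯 = A`, `κ = m = 0`, `s = r - 1`:
the `X_c` are all the intersections of `r - 1` hypersurfaces of the given multidegrees in `A`. This is the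
setting of the starting results `MP_308fa9_nt.OverNumberFields` (100% of a box) and
`MP_308fa9_nt.RandomOrbits` (pronull set; random orbits of thin groups), whose definitions are used.

`X_c` is obstructed (`Obstructed`) if there is ONE squarefree level `N` such that, for ALL number fields `F`
containing `K` with `[F : ℚ] ≤ D`, the variety `X_c` has no point over `F` and its `N`-Selmer set over `F`
(described by the `N`-coverings of `A` and the finite places of `F`) is empty. By the theory of descent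
the Brauer-Manin set of `X_c` over `F`, even projected to the finite places, is then empty. So if `X_c` is a
smooth, geometrically connected curve, Stoll's conjecture is true for `X_c` over all these number
fields `F`.

**Theorem**, unconditional. Let the number field `K` with an integral basis, `r`, `s`, `m` and the
multidegrees be given; the vectors `c` are identified with integral vectors, with the finite index set `I`.

0. (Equidistribution.) Every sequence `c_0, c_1, …` of integral vectors which for some `M` is uniformly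
   distributed modulo all `q` prime to `M` is good (`Good`): there is ONE set `E` of indices of natural
   density zero, such that for ALL `a`, `b`, `Φ`, `D` as above and ALL integral vectors `v` the variety
   `X_{c_n + v}` is obstructed for all but finitely many `n ∉ E`.

1. (Random digits, uniformly.) Let `δ_{ij}` (`i ∈ I`, `j = 0, 1, …`) be independent random integers,
   `|δ_{ij}| ≤ M`, with arbitrary distributions, only no value has a probability larger than `1 - η`. Let
   `γ_{ij} ≠ 0` be ANY integers without prime factors larger than `M`, and `u_i` any integers. For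
   all `a`, `b`, `Φ`, `D` as above and every finite set `V` of integral vectors: with a probability larger
   than `1 - ε` the varieties `X_{x + v}` are obstructed for all `v ∈ V`, where
   `x = (u_i + ∑_{j < k} γ_{ij} δ_{ij})_i`, if `k ≥ k₀`; here `k₀` depends only on the family, `V`, `M`, `η`
   and `ε`. Examples: `γ_{ij} = β ^ j` (coefficients with random digits in a base `β ≤ M`), or the
   digits of given coefficients are replaced by random digits in `k` arbitrary places.
2. (Almost surely.) For the `δ_{ij}` as in 1, ANY such integers `γ_{nij}` and any integers `u_{ni}` let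
   `x_n = (u_{ni} + ∑_{j < n} γ_{nij} δ_{ij})_i`, for example the truncations of an infinite sequence of
   digits in both orders. Almost surely the sequence `x_n` is good.
3. (Normal numbers.) Let the vector `α ∈ ℝ ^ I` be normal to the base `β` (`Normal`). Then the sequence
   `⌊β ^ n α_i⌋` of its prefixes is good. The condition on `α` does not depend on the curves.
4. (Fourier decay.) Let `ν` be a finite measure on `ℝ ^ I` with `|ν^(ξ)| ≤ C |ξ| ^ (-t)`, `t > 0` arbitrarily
   small, for example a measure on a set of Lebesgue measure zero with positive Fourier dimension. Let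
   `a_{i0}, a_{i1}, …` be ANY sequences of real numbers with mutual distances at least `t₀ > 0`, and let
   `β_{in}` be any real numbers. Then the sequence `⌊a_{in} α_i + β_{in}⌋` is good for `ν`-almost all `α`.

The first part says that the elliptic curves `y² = x³ + a x`, `y² = x³ + b` are allowed, and that `Φ = ∅`,
`m = κ` is allowed.

Proof. The vectors `c` for which `X_c` is not obstructed are a pronull set (starting result), and
random sums, prefixes of normal numbers and metric sequences avoid pronull sets (`Pool.Agent.HP25.TW`, see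
`RandomNormalMetricTwists`).
-/

set_option autoImplicit false

namespace Pool.Agent.Results.MP_ab3ecb_nt.RandomNormalMetricCurves

open MeasureTheory ProbabilityTheory Filter Topology MvPolynomial NumberField
open Pool.Agent.Results.MP_308fa9_nt.RandomOrbits
  (Coeffs Multihomogeneous Supersingular FewPoints Obstructed vect value OnCurve null supersingular_of)

/-- the conditions on the elliptic curves, `𝒯 = {Φ_l = 0}`, the degrees and `D` -/
structure Admissible {K : Type} [Field K] [NumberField K] {r s m q : ℕ} (d : Fin s → Fin r → ℕ) (e : Fin s → ℕ)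
    (a b : Fin r → ℤ) (Φ : Fin q → MvPolynomial ((Fin r × Fin 3) ⊕ Fin (m + 1)) (𝓞 K)) (D : ℕ) : Prop where
  pos : 1 ≤ D
  ell : ∀ i, Supersingular (a i) (b i)
  dim : ∃ κ : ℕ, s ≤ r + κ ∧ 2 * D * (r + κ - s) < r ∧ ∃ B : ℝ, FewPoints a b Φ κ B D
  hom : ∃ (d' : Fin q → Fin r → ℕ) (e' : Fin q → ℕ), ∀ l, Multihomogeneous (Φ l) (d' l) (e' l)
  deg : (∀ j i, D ≤ d j i + 1) ∧ ∀ j, D ≤ e j + 1

/-- the `d i j` are independent random integers of absolute value at most `M`, and no value has a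
probability larger than `1 - η` -/
structure Digits {ι Ω : Type} [MeasurableSpace Ω] (P : Measure Ω) (M : ℕ) (η : ℝ) (d : ι → ℕ → Ω → ℤ) : Prop where
  meas : ∀ i j, Measurable (d i j)
  indep : iIndepFun (fun ij : ι × ℕ => d ij.1 ij.2) P
  bdd : ∀ i j ω, |d i j ω| ≤ M
  atom : ∀ i j a, P.real {ω | d i j ω = a} ≤ 1 - η

/-- `γ` is not zero and has no prime factor larger than `M` -/
def Smooth (M : ℕ) (γ : ℤ) : Prop := γ ≠ 0 ∧ ∀ p : ℕ, p.Prime → (p : ℤ) ∣ γ → p ≤ M

/-- the random vector with the components `u i + ∑_{j < k} γ i j * d i j` -/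
def rsum {ι Ω : Type} (u : ι → ℤ) (γ : ι → ℕ → ℤ) (k : ℕ) (d : ι → ℕ → Ω → ℤ) (ω : Ω) (i : ι) : ℤ :=
  u i + ∑ j ∈ Finset.range k, γ i j * d i j ω

/-- `exp (2 π i x)` -/
noncomputable def ex (x : ℝ) : ℂ := Complex.exp (2 * Real.pi * x * Complex.I)

/-- The vector `α` is normal to the base `β`: the sequence `β ^ n α` is uniformly distributed modulo `1`
(Weyl's criterion). -/
def Normal {ι : Type} [Fintype ι] (β : ℕ) (α : ι → ℝ) : Prop :=
  ∀ h : ι → ℤ, h ≠ 0 →
    Tendsto (fun N : ℕ => (1 / (N : ℂ)) * ∑ n ∈ Finset.range N, ex (∑ i, (h i : ℝ) * ((β : ℝ) ^ n * α i))) atTop (𝓝 0)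

/-- the Fourier transform of `ν` has power decay (in the maximum norm) -/
def FourierDecay {ι : Type} [Fintype ι] (ν : Measure (ι → ℝ)) : Prop :=
  ∃ C t : ℝ, 0 < t ∧ ∀ ξ : ι → ℝ, ξ ≠ 0 → ‖∫ α, ex (∑ i, ξ i * α i) ∂ν‖ ≤ C * ‖ξ‖ ^ (-t)

/-- `E` has natural density zero. -/
def DensityZero (E : Set ℕ) : Prop :=
  Tendsto (fun N : ℕ => (({n : ℕ | n < N ∧ n ∈ E}.ncard : ℕ) : ℝ) / (N : ℝ)) atTop (𝓝 0)

/-- for all `q` prime to `M` the vectors `c 0, c 1, …` are uniformly distributed modulo `q` -/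
def Equidistributed {ι : Type} [Fintype ι] (M : ℕ) (c : ℕ → ι → ℤ) : Prop :=
  ∀ q : ℕ, 0 < q → q.Coprime M → ∀ y : ι → ZMod q,
    Tendsto (fun N : ℕ => (({n : ℕ | n < N ∧ (fun i => (c n i : ZMod q)) = y}.ncard : ℕ) : ℝ) / (N : ℝ)) atTop
      (𝓝 (((q : ℝ) ^ Fintype.card ι)⁻¹))

/-- For all admissible families (with the given degrees) and all `v` the members `X_{c n + v}` are
obstructed, apart from the indices `n` in one set of density zero and finitely many more, depending on
the family and `v`. -/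
def Good {K : Type} [Field K] [NumberField K] {n₀ : ℕ} (ω : Module.Basis (Fin n₀) ℤ (𝓞 K)) {r s m : ℕ}
    (d : Fin s → Fin r → ℕ) (e : Fin s → ℕ) (c : ℕ → Coeffs m d e × Fin n₀ → ℤ) : Prop :=
  ∃ E : Set ℕ, DensityZero E ∧ ∀ (q : ℕ) (a b : Fin r → ℤ)
    (Φ : Fin q → MvPolynomial ((Fin r × Fin 3) ⊕ Fin (m + 1)) (𝓞 K)) (D : ℕ), Admissible d e a b Φ D →
    ∀ v : Coeffs m d e × Fin n₀ → ℤ, {n : ℕ | n ∉ E ∧ ¬ Obstructed a b Φ D (vect ω fun x => c n x + v x)}.Finite

section

variable {K : Type} [Field K] [NumberField K] {n₀ : ℕ} (ω : Module.Basis (Fin n₀) ℤ (𝓞 K)) {r s m : ℕ}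
    (d : Fin s → Fin r → ℕ) (e : Fin s → ℕ)

lemma pro {q : ℕ} {a b : Fin r → ℤ} {Φ : Fin q → MvPolynomial ((Fin r × Fin 3) ⊕ Fin (m + 1)) (𝓞 K)} {D : ℕ}
    (h : Admissible d e a b Φ D) (v : Coeffs m d e × Fin n₀ → ℤ) :
    Pool.Agent.N24.RW.ProNull {c : Coeffs m d e × Fin n₀ → ℤ | ¬ Obstructed a b Φ D (vect ω fun x => c x + v x)} := by
  obtain ⟨h1, h2, ⟨κ, h3, h4, B, h5⟩, ⟨d', e', h6⟩, h7, h8⟩ := h
  exact Pool.Agent.HP25.TW.shift (null ω r a b h2 κ s D h1 h3 h4 d e h7 h8 m q Φ d' e' h6 B h5) v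

/-- the admissible families with a vector -/
abbrev Idx (m : ℕ) : Type :=
  {x : Σ q : ℕ, (Fin r → ℤ) × (Fin r → ℤ) × (Fin q → MvPolynomial ((Fin r × Fin 3) ⊕ Fin (m + 1)) (𝓞 K)) × ℕ //
    Admissible d e x.2.1 x.2.2.1 x.2.2.2.1 x.2.2.2.2} × (Coeffs m d e × Fin n₀ → ℤ)

/-- the bad set -/
def bad (x : Idx (K := K) (n₀ := n₀) d e m) : Set (Coeffs m d e × Fin n₀ → ℤ) :=
  {c | ¬ Obstructed x.1.1.2.1 x.1.1.2.2.1 x.1.1.2.2.2.1 x.1.1.2.2.2.2 (vect ω fun y => c y + x.2 y)}

lemma bad_null (x : Idx (K := K) (n₀ := n₀) d e m) : Pool.Agent.N24.RW.ProNull (bad ω d e x) :=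
  pro ω d e x.1.2 x.2

include ω in
lemma idx_countable : Countable (Idx (K := K) (n₀ := n₀) d e m) := by
  have h1 : Countable (𝓞 K) := (ω.equivFun.toEquiv.injective).countable
  have h2 : Countable (MvPolynomial ((Fin r × Fin 3) ⊕ Fin (m + 1)) (𝓞 K)) := by
    rw [← Cardinal.mk_le_aleph0_iff]
    refine MvPolynomial.cardinalMk_le_max.trans ?_
    simp
    exact_mod_cast (Cardinal.natCast_lt_aleph0 (n := r * 3)).le
  infer_instance

lemma good_of (c : ℕ → Coeffs m d e × Fin n₀ → ℤ) (h : Pool.Agent.HP25.TW.OneSet c (bad ω d e)) : Good ω d e c := by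
  obtain ⟨E, hE, h1⟩ := h
  exact ⟨E, hE, fun q a b Φ D hA v => h1 (⟨⟨q, a, b, Φ, D⟩, hA⟩, v)⟩

end

theorem result :
    -- examples of admissible families
    (∀ a b : ℤ, a * b = 0 → (a ≠ 0 ∨ b ≠ 0) → Supersingular a b) ∧
    (∀ (K : Type) [Field K] [NumberField K] (r s κ D : ℕ) (d : Fin s → Fin r → ℕ) (e : Fin s → ℕ) (a b : Fin r → ℤ),
      1 ≤ D → (∀ i, Supersingular (a i) (b i)) → s ≤ r + κ → 2 * D * (r + κ - s) < r → (∀ j i, D ≤ d j i + 1) →
      (∀ j, D ≤ e j + 1) →
      Admissible d e a b (fun l : Fin 0 => (l.elim0 : MvPolynomial ((Fin r × Fin 3) ⊕ Fin (κ + 1)) (𝓞 K))) D) ∧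
    ∀ (K : Type) [Field K] [NumberField K] (n₀ : ℕ) (ω : Module.Basis (Fin n₀) ℤ (𝓞 K)) (r s m : ℕ)
      (d : Fin s → Fin r → ℕ) (e : Fin s → ℕ),
    -- 0. equidistributed sequences
    (∀ (M : ℕ) (c : ℕ → Coeffs m d e × Fin n₀ → ℤ), 0 < M → Equidistributed M c → Good ω d e c) ∧
    -- 1. random sums, uniformly
    (∀ (q : ℕ) (a b : Fin r → ℤ) (Φ : Fin q → MvPolynomial ((Fin r × Fin 3) ⊕ Fin (m + 1)) (𝓞 K)) (D : ℕ),
      Admissible d e a b Φ D → ∀ V : Set (Coeffs m d e × Fin n₀ → ℤ), V.Finite →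
      ∀ (M : ℕ) (η ε : ℝ), 0 < η → 0 < ε → ∃ k₀ : ℕ, ∀ k ≥ k₀,
        ∀ (Ω : Type) [MeasurableSpace Ω] (P : Measure Ω) [IsProbabilityMeasure P] (δ : Coeffs m d e × Fin n₀ → ℕ → Ω → ℤ),
        Digits P M η δ → ∀ γ : Coeffs m d e × Fin n₀ → ℕ → ℤ, (∀ i, ∀ j < k, Smooth M (γ i j)) →
        ∀ u : Coeffs m d e × Fin n₀ → ℤ,
        P.real {w | ∃ v ∈ V, ¬ Obstructed a b Φ D (vect ω fun x => rsum u γ k δ w x + v x)} ≤ ε) ∧
    -- 2. almost surely
    (∀ (Ω : Type) [MeasurableSpace Ω] (P : Measure Ω) [IsProbabilityMeasure P] (M : ℕ) (η : ℝ)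
      (δ : Coeffs m d e × Fin n₀ → ℕ → Ω → ℤ), 0 < η → Digits P M η δ →
      ∀ γ : ℕ → Coeffs m d e × Fin n₀ → ℕ → ℤ, (∀ n i, ∀ j < n, Smooth M (γ n i j)) →
      ∀ u : ℕ → Coeffs m d e × Fin n₀ → ℤ, ∀ᵐ w ∂P, Good ω d e fun n => rsum (u n) (γ n) n δ w) ∧
    -- 3. normal numbers
    (∀ (β : ℕ) (α : Coeffs m d e × Fin n₀ → ℝ), 2 ≤ β → Normal β α → Good ω d e fun n i => ⌊(β : ℝ) ^ n * α i⌋) ∧
    -- 4. Fourier decay
    (∀ (ν : Measure (Coeffs m d e × Fin n₀ → ℝ)) [IsFiniteMeasure ν], FourierDecay ν →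
      ∀ (a : Coeffs m d e × Fin n₀ → ℕ → ℝ) (t₀ : ℝ), 0 < t₀ → (∀ i l n, l ≠ n → t₀ ≤ |a i l - a i n|) →
      ∀ β : Coeffs m d e × Fin n₀ → ℕ → ℝ, ∀ᵐ α ∂ν, Good ω d e fun n i => ⌊a i n * α i + β i n⌋) := by
  classical
  refine ⟨supersingular_of, ?_, ?_⟩
  · intro K _ _ r s κ D d e a b hD hE hs hr hd he
    refine ⟨hD, hE, ⟨κ, hs, hr, 3 / 2, 1, 3, one_pos, ?_⟩, ⟨fun l => l.elim0, fun l => l.elim0, fun l => l.elim0⟩, hd, he⟩
    intro p hp hp3 _ k _ _ _ _ φ V hV
    have h1 : {P : Projectivization k (Fin (κ + 1) → k) |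
        ∀ l : Fin 0, value φ (l.elim0 : MvPolynomial ((Fin r × Fin 3) ⊕ Fin (κ + 1)) (𝓞 K)) V
          P.rep = 0} = Set.univ :=
      Set.eq_univ_of_forall fun P l => l.elim0
    have h3 : 3 ≤ Nat.card k := by
      rw [Nat.card_eq_fintype_card]
      refine hp3.trans ?_
      have h4 := Fintype.card_le_of_injective _ (algebraMap (ZMod p) k).injective
      rwa [ZMod.card] at h4
    rw [h1, Set.ncard_univ]
    have h2 := Pool.Agent.N89.CI.density_fun (k := k) (m := κ) (κ := κ) h3 rfl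
    rwa [Nat.card_eq_fintype_card (α := k)] at h2
  intro K _ _ n₀ ω r s m d e
  have hcnt : Countable (Idx (K := K) (n₀ := n₀) d e m) := idx_countable ω d e
  have hfree : ∀ {ι Ω : Type} [MeasurableSpace Ω] {P : Measure Ω} {D : ℕ} {η : ℝ} {d : ι → ℕ → Ω → ℤ},
      Digits P D η d → Pool.Agent.HP25.TW.Free P D η d := fun h => ⟨h.meas, h.indep, h.bdd, h.atom⟩
  refine ⟨?_, ?_, ?_, ?_, ?_⟩
  · intro M c hM hc
    exact good_of ω d e _ ((Pool.Agent.HP25.TW.equi_tendsto c hc).oneSet (bad_null ω d e) hM)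
  · intro q a b Φ D hA V hV M η ε hη hε
    obtain ⟨K₀, hK₀⟩ := Pool.Agent.HP25.TW.uniform
      (fun v : Coeffs m d e × Fin n₀ → ℤ => {c : Coeffs m d e × Fin n₀ → ℤ | ¬ Obstructed a b Φ D (vect ω fun x => c x + v x)})
      (fun v => pro ω d e hA v) hV M hη hε
    exact ⟨K₀, fun k hk Ω _ P _ δ hδ γ hγ u => hK₀ k hk Ω P δ (hfree hδ) γ hγ u⟩
  · intro Ω _ P _ M η δ hη hδ γ hγ u
    filter_upwards [Pool.Agent.HP25.TW.ae_sums (hfree hδ) hη γ hγ u] with w hw
    exact good_of ω d e _ (hw.oneSet (bad_null ω d e) (Nat.factorial_pos _))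
  · intro β α hβ hα
    exact good_of ω d e _ (Pool.Agent.HP25.TW.Equi.oneSet (bad_null ω d e) one_pos (Pool.Agent.HP25.TW.normal hβ hα))
  · intro ν _ hν a t₀ ht₀ ha β
    filter_upwards [Pool.Agent.HP25.TW.decay hν a ht₀ ha β] with α hα
    exact good_of ω d e _ (hα.oneSet (bad_null ω d e) one_pos)

end Pool.Agent.Results.MP_ab3ecb_nt.RandomNormalMetricCurves
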