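import Pool.Agent.H30T.Defs
import Pool.Agent.H30T.Defs2
import Pool.Agent.H30T.All4

/-!
# Stoll's conjecture: every general odd hyperelliptic curve over `ℚ` has infinitely many quadratic twists
# for which the 2-primary descent is trivial over ALL admissible Galois 2-extensions at once

Let `f` be a monic polynomial of degree `2 g + 1` with integral coefficients whose Galois group over `ℚ` is
the full symmetric group and whose discriminant is divisible exactly once by some odd prime `p₀`
(`IsGeneral`; almost all polynomials, ordered by height, have this property). A number field `M` is admissible for
`f` (`AdmissibleFor`) if it is a real Galois extension of `ℚ` of degree a power of two, `2` and the primes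
whose square divides the discriminant of `f` split completely in `M`, and `f` is irreducible modulo the
primes which are ramified in `M`.

Theorem. There is a constant `c` depending on `f` only such that for every field `M₀` admissible for `f`, given
in advance, there are infinitely many squarefree `D`, in every residue class `1` modulo `8 m`, `p₀ ∤ m`,
all of whose prime factors split completely in `M₀`, with the following properties. The field `M₀` and
infinitely many real quadratic fields are admissible for the twist `f_D`; and for ALL fields `M` which are
admissible for `f_D` the curve `C : y ^ 2 = f_D(x)` and its Jacobian `J` satisfy: the `2 ^ k`-Selmer sets
of `C` over `M` are trivial for all `k`; `J(M)` is uniquely divisible by two and the 2-primary part of the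
Tate-Shafarevich group of `J` over `M` is zero; the point at infinity is the only `M`-rational point of
`C`; the real points which survive the 2-primary descent over `M` are in its component; for every prime
`w` of `M` above two at most `c` points of `C(M_w)` survive, and only the point at infinity, if `f` is
irreducible modulo two and no polynomial `a - x`, `a` an integer, is a square modulo `4` and `f`.

Plan of the proof (`Pool/Agent/H30T`). Modulo the prime factors `q` of `D` the polynomial `f` is the product of a
linear and an irreducible factor. For every nonzero class of a finite group of classes of the field
`ℚ[x] / (f)` such a prime `q`, which excludes this class from the Selmer group of the twist, is found by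
Chebotarev's theorem and the product formula for the Hasse invariants of the quadratic forms which belong
to the class; the symmetric group and `p₀` are used for the existence of the Frobenius elements, and
`M₀` only has to be unramified at `p₀`. The Selmer group over `M` is computed by descent along the
2-group `Gal(M/ℚ)`: a nonzero class gives a nonzero invariant class, hence a class over `ℚ`; at the
primes which are ramified in `M` nothing is needed, because `f` is irreducible modulo these primes. For the
rational points: over the completions above two the twists by `D = 1` modulo `8` are isomorphic to the curve
itself; only finitely many points of `C(ℚ_2)` are infinitely divisible by two in the Jacobian, and their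
coordinates are algebraic numbers. So the coordinates of the rational points of the twist over `M` belong, up
to the twist, to a finite set of algebraic numbers, and a large prime factor `q` of `D`, which is
unramified in `M`, excludes them.
-/

set_option autoImplicit false
set_option linter.all false

open Polynomial NumberField
open Pool.Agent.H30T

namespace Pool.Agent.Results.MP_ab3ecb_nt.TwistsOfEveryCurve

/-- For every general `f` there is a constant `c` such that for every field `M₀` admissible for `f`, every `m`
prime to `p₀` and every `B` there is a squarefree `D > B`, `D = 1` modulo `8 m`, whose prime factors split
completely in `M₀`, such that `M₀` and infinitely many real quadratic fields are admissible for the twist by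
`D`, and for ALL fields `M` which are admissible for the twist the 2-primary descent over `M` is
trivial. -/
theorem result (g : ℕ) (hg : 1 ≤ g) (f : ℤ[X]) (p₀ : ℕ) (hf : IsGeneral g f p₀) :
    ∃ c : ℕ, ∀ (M₀ : Type) [Field M₀] [NumberField M₀], AdmissibleFor M₀ f →
      ∀ m B : ℕ, 0 < m → ¬ p₀ ∣ m →
      ∃ D : ℕ, B < D ∧ Squarefree D ∧ D % (8 * m) = 1 ∧
        (∀ q : ℕ, q.Prime → q ∣ D → SplitsAt M₀ q) ∧ AdmissibleFor M₀ (twist f D) ∧
        ManyQuadratic (twist f D) ∧
        ∀ (M : Type) [Field M] [NumberField M], AdmissibleFor M (twist f D) →
          DescentTrivial (overField M (twist f D)) c ∧
          (GoodAtTwo f → OnlyInfinityAtTwo (overField M (twist f D))) :=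
  final p4 g hg f p₀ hf

end Pool.Agent.Results.MP_ab3ecb_nt.TwistsOfEveryCurve
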